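import Mathlib
import Pool.Agent.Lib37.Good

set_option autoImplicit false
open Set Topology Filter

namespace Pool.Agent.H35MR

open Pool.Agent.Lib37

section

variable {I X Y : Type} [TopologicalSpace X] [TopologicalSpace Y]
variable {s : X → Set I} {rk : I → ℕ} {f : X → Y}

/-- A point-finite family of open subsets of a closed `Gδ`-set expands to a point-finite family of
open subsets of the whole space. -/
lemma expand (hs : Str s rk) (hf : IsProperMap f) (hsurj : Function.Surjective f)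
    {L : Set Y} (hL : IsClosed L) (H : ℕ → Set Y) (hH : ∀ n, IsOpen (H n)) (hHa : Antitone H)
    (hHL : ⋂ n, H n = L) {κ : Type} (U : κ → Set Y) (hU : ∀ k, IsOpen (U k))
    (hfin : ∀ y ∈ L, {k | y ∈ U k}.Finite) :
    ∃ O : κ → Set Y, (∀ k, IsOpen (O k)) ∧ (∀ k, O k ⊆ U k) ∧ (∀ k, U k ∩ L ⊆ O k) ∧
      ∀ y, {k | y ∈ O k}.Finite := by
  classical
  -- the finite sets of indices
  let S : Y → Set κ := fun y => {k | y ∈ U k}
  -- for every size `n` the layered family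
  have key : ∀ n : ℕ, ∃ D : ℕ → Finset κ → Set Y, (∀ j F, IsOpen (D j F)) ∧
      (∀ j y, {F : Finset κ | y ∈ D j F}.Finite) ∧ (∀ j F, ∀ k ∈ F, D j F ⊆ U k) ∧
      ∀ y ∈ L, ∀ F : Finset κ, F.card = n → (F : Set κ) = S y → ∃ j, y ∈ D j F := by
    intro n
    obtain ⟨ι, _, _, c, hc1, hc2, hc3⟩ : ∃ (ι : Type) (_ : LinearOrder ι) (_ : WellFoundedLT ι)
        (c : ι → Finset κ), (∀ ξ, (c ξ).card = n) ∧ Function.Injective c ∧
        ∀ F : Finset κ, F.card = n → ∃ ξ, c ξ = F := by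
      obtain ⟨a, b, _⟩ := Cardinal.exists_ord_eq_type_lt {F : Finset κ // F.card = n}
      exact ⟨{F : Finset κ // F.card = n}, a, b, Subtype.val, fun ξ => ξ.2,
        Subtype.val_injective, fun F hF => ⟨⟨F, hF⟩, rfl⟩⟩
    let Lt : Set Y := {y ∈ L | ∀ F : Finset κ, (F : Set κ) ⊆ S y → F.card < n}
    have hLt : IsClosed Lt := by
      have : Lt = L ∩ ⋂ F : {F : Finset κ // n ≤ F.card}, (⋂ k ∈ F.1, U k)ᶜ := by
        ext y
        simp only [Lt, S, mem_sep_iff, mem_inter_iff, mem_iInter, mem_compl_iff, Subtype.forall,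
          not_forall]
        refine and_congr_right fun _ => ?_
        constructor
        · intro h F hF
          by_contra hcon
          push Not at hcon
          exact absurd (h F fun k hk => hcon k hk) (not_lt.2 hF)
        · intro h F hF
          by_contra hcon
          obtain ⟨k, hk, hk'⟩ := h F (not_lt.1 hcon)
          exact hk' (hF hk)
      rw [this]
      refine hL.inter (isClosed_iInter fun F => ?_)
      exact (isOpen_biInter_finset fun k _ => hU k).isClosed_compl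
    let O' : ι → Set Y := fun ξ => (⋂ k ∈ c ξ, U k) \ Lt
    have hO' : ∀ ξ, IsOpen (O' ξ) := fun ξ =>
      (isOpen_biInter_finset fun k _ => hU k).sdiff hLt
    obtain ⟨D, hD1, hD2, -, hD4⟩ := layers hs hf hsurj O' hO'
    refine ⟨fun j F => ⋃ ξ : {ξ // c ξ = F}, (D j ξ.1 ∩ O' ξ.1), ?_, ?_, ?_, ?_⟩
    · intro j F
      exact isOpen_iUnion fun ξ => (hD1 j ξ.1).inter (hO' ξ.1)
    · intro j y
      refine ((hD2 j y).image c).subset ?_
      intro F hF
      obtain ⟨ξ, hξ⟩ := mem_iUnion.1 hF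
      exact ⟨ξ.1, hξ.1, ξ.2⟩
    · intro j F k hk y hy
      obtain ⟨ξ, hξ⟩ := mem_iUnion.1 hy
      exact mem_iInter₂.1 hξ.2.1 k (by rw [ξ.2]; exact hk)
    · intro y hyL F hF hFS
      obtain ⟨ξ, rfl⟩ := hc3 F hF
      have hyO : y ∈ O' ξ := by
        refine ⟨mem_iInter₂.2 fun k hk => ?_, fun hy => ?_⟩
        · have : k ∈ S y := by rw [← hFS]; exact hk
          exact this
        · have := hy.2 (c ξ) hFS.subset
          omega
      have hmin : ∀ ξ' < ξ, y ∉ O' ξ' := by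
        intro ξ' hlt hy
        have h1 : (c ξ' : Set κ) ⊆ (c ξ : Set κ) := by
          rw [hFS]
          intro k hk
          exact mem_iInter₂.1 hy.1 k hk
        have h2 : c ξ' = c ξ :=
          Finset.eq_of_subset_of_card_le (by exact_mod_cast h1) (by rw [hc1, hc1])
        exact absurd (hc2 h2) hlt.ne
      obtain ⟨j, hj⟩ := hD4 ξ y hyO hmin
      exact ⟨j, mem_iUnion.2 ⟨⟨ξ, rfl⟩, hj, hyO⟩⟩
  choose D hD1 hD2 hD3 hD4 using key
  refine ⟨fun k => ⋃ (n : ℕ) (j : ℕ), (⋃ F : {F : Finset κ // k ∈ F}, D n j F.1) ∩ H (n + j) ∩ U k,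
    ?_, ?_, ?_, ?_⟩
  · intro k
    refine isOpen_iUnion fun n => isOpen_iUnion fun j => ?_
    exact ((isOpen_iUnion fun F : {F : Finset κ // k ∈ F} => hD1 n j F.1).inter (hH _)).inter
      (hU k)
  · intro k y hy
    simp only [mem_iUnion] at hy
    obtain ⟨n, j, hy⟩ := hy
    exact hy.2
  · rintro k y ⟨hyk, hyL⟩
    have hS := hfin y hyL
    obtain ⟨j, hj⟩ := hD4 hS.toFinset.card y hyL hS.toFinset rfl (by simp [S])
    simp only [mem_iUnion]
    refine ⟨hS.toFinset.card, j, ⟨⟨mem_iUnion.2 ⟨⟨hS.toFinset, ?_⟩, hj⟩, ?_⟩, hyk⟩⟩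
    · simpa using hyk
    · have : y ∈ ⋂ n, H n := by rw [hHL]; exact hyL
      exact mem_iInter.1 this _
  · intro y
    by_cases hyL : y ∈ L
    · refine (hfin y hyL).subset ?_
      intro k hk
      simp only [mem_setOf_eq, mem_iUnion] at hk
      obtain ⟨n, j, hk⟩ := hk
      exact hk.2
    · obtain ⟨N, hN⟩ : ∃ N, y ∉ H N := by
        rw [← hHL] at hyL
        simpa using hyL
      have hfin2 : (⋃ n ∈ Finset.range N, ⋃ j ∈ Finset.range N,
          ⋃ F ∈ {F : Finset κ | y ∈ D n j F}, (F : Set κ)).Finite := by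
        refine (Finset.range N).finite_toSet.biUnion fun n _ => ?_
        refine (Finset.range N).finite_toSet.biUnion fun j _ => ?_
        exact (hD2 n j y).biUnion fun F _ => F.finite_toSet
      refine hfin2.subset ?_
      intro k hk
      simp only [mem_setOf_eq, mem_iUnion] at hk
      obtain ⟨n, j, ⟨hk1, hk2⟩, -⟩ := hk
      obtain ⟨F, hF⟩ := mem_iUnion.1 hk1
      have hlt : n + j < N := by
        by_contra hcon
        exact hN (hHa (not_lt.1 hcon) hk2)
      simp only [mem_iUnion]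
      exact ⟨n, by simp; omega, j, by simp; omega, F.1, hF, F.2⟩

/-- A closed `Gδ`-subset which embeds into some `c₀(Γ)` is good. -/
lemma goodIn_of_Gdelta [NormalSpace Y] (hs : Str s rk) (hf : IsProperMap f)
    (hsurj : Function.Surjective f) {L : Set Y} (hL : IsClosed L) (hG : IsGδ L)
    (hE : EmbC0 ↥L) : GoodIn L := by
  classical
  intro V hV hVm hVc
  -- open sets decreasing to L
  obtain ⟨H, hH, hHa, hHL⟩ : ∃ H : ℕ → Set Y, (∀ n, IsOpen (H n)) ∧ Antitone H ∧ ⋂ n, H n = L := by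
    obtain ⟨H₀, h1, h2⟩ := isGδ_iff_eq_iInter_nat.1 hG
    refine ⟨fun n => ⋂ k ∈ Finset.range (n + 1), H₀ k,
      fun n => isOpen_biInter_finset fun k _ => h1 k, ?_, ?_⟩
    · intro n m hnm y hy
      simp only [mem_iInter, Finset.mem_range] at hy ⊢
      intro k hk
      exact hy k (by omega)
    · rw [h2]
      ext y
      simp only [mem_iInter, Finset.mem_range]
      exact ⟨fun h k => h k k (by omega), fun h _ k _ => h k⟩
  obtain ⟨W, hW1, hW2, hW3⟩ := hE.coversPF (fun n => Subtype.val ⁻¹' V n)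
    (fun n => (hV n).preimage continuous_subtype_val)
    (fun n m h => preimage_mono (hVm h)) (by
      rw [← preimage_iUnion]
      ext z
      simp only [mem_preimage, mem_univ, iff_true]
      exact hVc z.2)
  -- expansions
  have key : ∀ m : ℕ, ∃ O : W m → Set Y, (∀ U, IsOpen (O U)) ∧ (∀ U : W m, ∃ n, O U ⊆ V n) ∧
      (∀ (U : W m) (y : Y) (hy : y ∈ L), (⟨y, hy⟩ : L) ∈ U.1 → y ∈ O U) ∧
      ∀ y, {U | y ∈ O U}.Finite := by
    intro m
    have h1 : ∀ U : W m, ∃ U' : Set Y, IsOpen U' ∧ Subtype.val ⁻¹' U' = U.1 ∧ ∃ n, U' ⊆ V n := by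
      intro U
      obtain ⟨hcoz, n, hn⟩ := hW1 m U.1 U.2
      obtain ⟨g, hg⟩ := hcoz
      have hopen : IsOpen U.1 := by
        rw [hg]
        exact isOpen_ne_fun g.continuous continuous_const
      obtain ⟨U', hU', hUU'⟩ := isOpen_induced_iff.1 hopen
      refine ⟨U' ∩ V n, hU'.inter (hV n), ?_, n, inter_subset_right⟩
      rw [preimage_inter, hUU']
      exact inter_eq_left.2 hn
    choose U' hU'1 hU'2 hU'3 using h1
    obtain ⟨O, hO1, hO2, hO3, hO4⟩ := expand hs hf hsurj hL H hH hHa hHL U' hU'1 (by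
      intro y hy
      have := (hW2 m ⟨y, hy⟩)
      refine Set.Finite.of_finite_image (f := Subtype.val) (this.subset ?_)
        Subtype.val_injective.injOn
      rintro _ ⟨U, hU, rfl⟩
      refine ⟨U.2, ?_⟩
      rw [← hU'2 U]
      exact hU)
    refine ⟨O, hO1, fun U => ?_, ?_, hO4⟩
    · obtain ⟨n, hn⟩ := hU'3 U
      exact ⟨n, (hO2 U).trans hn⟩
    · intro U y hy hyU
      refine hO3 U ⟨?_, hy⟩
      have h2 : (⟨y, hy⟩ : L) ∈ Subtype.val ⁻¹' U' U := by rw [hU'2 U]; exact hyU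
      exact h2
  choose O hO1 hO2 hO3 hO4 using key
  -- cozero pieces
  have hv : ∀ (m i : ℕ) (U : W m), ∃ v : C(Y, unitInterval), (∀ y, v y ≠ 0 → y ∈ O m U) ∧
      ∀ z : L, (1 : ℝ) / (i + 1) ≤ |(hW1 m U.1 U.2).1.choose z| → v z = 1 := by
    intro m i U
    let g := (hW1 m U.1 U.2).1.choose
    have hg : U.1 = {z | g z ≠ 0} := (hW1 m U.1 U.2).1.choose_spec
    have hcl : IsClosed ((Subtype.val : L → Y) '' {z | (1 : ℝ) / (i + 1) ≤ |g z|}) :=
      hL.isClosedEmbedding_subtypeVal.isClosedMap _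
        (isClosed_le continuous_const g.continuous.abs)
    obtain ⟨v, hv1, hv2⟩ := urys hcl (hO1 m U) (by
      rintro _ ⟨z, hz, rfl⟩
      refine hO3 m U z.1 z.2 ?_
      rw [hg]
      intro h0
      have h3 : (1 : ℝ) / (i + 1) ≤ |g z| := hz
      have h4 : g z = 0 := h0
      rw [h4, abs_zero] at h3
      have : (0 : ℝ) < 1 / (i + 1) := by positivity
      linarith)
    exact ⟨v, hv2, fun z hz => hv1 _ ⟨z, hz, rfl⟩⟩
  choose v hv1 hv2 using hv
  refine ⟨fun N => range fun U : W N.unpair.1 => {y | v N.unpair.1 N.unpair.2 U y ≠ 0},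
    ?_, ?_, ?_⟩
  · rintro N _ ⟨U, rfl⟩
    refine ⟨isCozero_unit _, ?_⟩
    obtain ⟨n, hn⟩ := hO2 N.unpair.1 U
    exact ⟨n, fun y hy => hn (hv1 _ _ U y hy)⟩
  · intro N y
    refine ((hO4 N.unpair.1 y).image fun U => {y | v N.unpair.1 N.unpair.2 U y ≠ 0}).subset ?_
    rintro _ ⟨⟨U, rfl⟩, hy⟩
    exact ⟨U, hv1 _ _ U y hy, rfl⟩
  · intro y hy
    obtain ⟨m, U, hU, hyU⟩ := hW3 ⟨y, hy⟩
    have hg : U = {z | (hW1 m U hU).1.choose z ≠ 0} := (hW1 m U hU).1.choose_spec
    have hpos2 : 0 < |(hW1 m U hU).1.choose ⟨y, hy⟩| := by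
      rw [abs_pos]
      have h5 := hyU
      rw [hg] at h5
      exact h5
    obtain ⟨j, hj⟩ := exists_nat_one_div_lt hpos2
    refine ⟨Nat.pair m j, {y | v m j ⟨U, hU⟩ y ≠ 0}, ?_, ?_⟩
    · have h1 : ∀ p : ℕ × ℕ, p = (m, j) → {y | v m j ⟨U, hU⟩ y ≠ 0} ∈
          range fun U : W p.1 => {y | v p.1 p.2 U y ≠ 0} := by
        rintro _ rfl
        exact ⟨⟨U, hU⟩, rfl⟩
      exact h1 _ (Nat.unpair_pair m j)
    · have := hv2 m j ⟨U, hU⟩ ⟨y, hy⟩ hj.le
      simp only [mem_setOf_eq, this]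
      exact one_ne_zero

/-- Countable unions of good sets are good. -/
lemma goodIn_iUnion {L : ℕ → Set Y} (h : ∀ n, GoodIn (L n)) : GoodIn (⋃ n, L n) := by
  intro V hV hVm hVc
  have h1 := fun n => h n V hV hVm ((subset_iUnion L n).trans hVc)
  choose W hW1 hW2 hW3 using h1
  refine ⟨fun N => W N.unpair.1 N.unpair.2, fun N => hW1 _ _, fun N => hW2 _ _, ?_⟩
  intro y hy
  obtain ⟨n, hn⟩ := mem_iUnion.1 hy
  obtain ⟨m, U, hU, hyU⟩ := hW3 n y hn
  exact ⟨Nat.pair n m, U, by simpa using hU, hyU⟩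

end

/-- **Countable sums of closed `Gδ`-sets, scattered form.** -/
theorem gdelta_main {X Y : Type} [TopologicalSpace X] [TopologicalSpace Y] [NormalSpace Y]
    (hX : EmbC0 X) {f : X → Y} (hf : IsProperMap f) (hsurj : Function.Surjective f)
    (h : ∀ B : Set Y, IsClosed B → B.Nonempty → ∃ y ∈ B, ∃ N ∈ 𝓝 y, IsClosed N ∧
      ∃ L : ℕ → Set Y, (∀ n, IsClosed (L n) ∧ IsGδ (L n) ∧ EmbC0 ↥(L n)) ∧ N ∩ B ⊆ ⋃ n, L n) :
    EmbC0 Y := by
  classical
  have hX' := hX
  obtain ⟨Γ, e, he, h0⟩ := hX'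
  obtain ⟨I, X', _, s, rk, π, hs, hπ, hπs⟩ := exists_zeroDim e he.isInducing h0
  have : T2Space X := he.t2Space
  have : T1Space Y := t1_image hf.isClosedMap hsurj
  have hf' : IsProperMap (f ∘ π) := hf.comp hπ
  have hs' : Function.Surjective (f ∘ π) := hsurj.comp hπs
  have hgood : GoodIn (univ : Set Y) := by
    refine goodIn_univ hs hf' hs' ?_
    intro B hB hne
    obtain ⟨y, hy, N, hN, hNc, L, hL, hNL⟩ := h B hB hne
    refine ⟨y, hy, N, hN, hNc, ?_⟩
    have h1 : ∀ n, GoodIn (N ∩ B ∩ L n) := fun n =>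
      (goodIn_of_Gdelta hs hf' hs' (hL n).1 (hL n).2.1 (hL n).2.2).mono
        ((hNc.inter hB).inter (hL n).1) inter_subset_right
    have h2 : N ∩ B = ⋃ n, (N ∩ B ∩ L n) := by
      rw [← inter_iUnion]
      exact (inter_eq_left.2 hNL).symm
    rw [h2]
    exact goodIn_iUnion h1
  refine embC0_of_coversPF hX hf hsurj ?_
  intro V hV hVm hVc
  obtain ⟨W, h1, h2, h3⟩ := hgood V hV hVm hVc.ge
  exact ⟨W, h1, h2, fun y => h3 y trivial⟩

end Pool.Agent.H35MR
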