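import Mathlib
import Pool.Agent.Lib37.Basic

set_option autoImplicit false
open Set Topology Filter

namespace Pool.Agent.H35MR

open scoped NNReal
open Pool.Agent.Lib37 (isOpen_kern isCompact_fib Hits MinHits finite_minHits)

section fibre

variable {X Y : Type} [TopologicalSpace X] [TopologicalSpace Y] {f : X → Y}

/-- the infimum of `u` over the fibre of `f` over `y` -/
noncomputable def fmin (f : X → Y) (u : X → ℝ≥0) (y : Y) : ℝ≥0 := ⨅ x : {x // f x = y}, u x

lemma fmin_le (f : X → Y) (u : X → ℝ≥0) (x : X) : fmin f u (f x) ≤ u x :=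
  ciInf_le (OrderBot.bddBelow _) (⟨x, rfl⟩ : {x' // f x' = f x})

lemma exists_fmin (hf : IsProperMap f) (hsurj : Function.Surjective f) {u : X → ℝ≥0}
    (hu : Continuous u) (y : Y) : ∃ x, f x = y ∧ u x = fmin f u y := by
  obtain ⟨x₀, hx₀⟩ := hsurj y
  obtain ⟨x, hx, hmin⟩ := (isCompact_fib hf y).exists_isMinOn ⟨x₀, hx₀⟩ hu.continuousOn
  refine ⟨x, hx, le_antisymm ?_ ?_⟩
  · haveI : Nonempty {x // f x = y} := ⟨⟨x, hx⟩⟩
    exact le_ciInf fun x' => hmin x'.2
  · have := fmin_le f u x
    rwa [show f x = y from hx] at this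

lemma fmin_mono (hsurj : Function.Surjective f) {u u' : X → ℝ≥0} (h : ∀ x, u x ≤ u' x) (y : Y) :
    fmin f u y ≤ fmin f u' y := by
  obtain ⟨x₀, hx₀⟩ := hsurj y
  haveI : Nonempty {x // f x = y} := ⟨⟨x₀, hx₀⟩⟩
  refine le_ciInf fun x' => ?_
  have := fmin_le f u x'.1
  rw [x'.2] at this
  exact this.trans (h x'.1)

/-- The function `fmin` is continuous at every point over which `f` is open. -/
lemma continuous_fmin (hf : IsProperMap f) (ho : IsOpenMap f) (hsurj : Function.Surjective f)
    {u : X → ℝ≥0} (hu : Continuous u) : Continuous (fmin f u) := by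
  rw [continuous_iff_continuousAt]
  intro y
  rw [ContinuousAt, tendsto_order]
  constructor
  · intro a ha
    have hO : IsOpen (kernImage f {x | a < u x}) :=
      isOpen_kern hf (isOpen_lt continuous_const hu)
    have hy : y ∈ kernImage f {x | a < u x} := by
      intro x hx
      have := fmin_le f u x
      rw [show f x = y from hx] at this
      exact ha.trans_le this
    filter_upwards [hO.mem_nhds hy] with y' hy'
    obtain ⟨x, hx, hxu⟩ := exists_fmin hf hsurj hu y'
    rw [← hxu]
    exact hy' hx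
  · intro a ha
    obtain ⟨x, hx, hxu⟩ := exists_fmin hf hsurj hu y
    have hO : IsOpen (f '' {x | u x < a}) := ho _ (isOpen_lt hu continuous_const)
    have hy : y ∈ f '' {x | u x < a} := ⟨x, by rw [mem_setOf_eq, hxu]; exact ha, hx⟩
    filter_upwards [hO.mem_nhds hy] with y' hy'
    obtain ⟨x', hx', rfl⟩ := hy'
    exact (fmin_le f u x').trans_lt hx'

end fibre

section family

variable {J X Y : Type} [TopologicalSpace X] [TopologicalSpace Y] {f : X → Y}

/-- the maximum over the fibre-minimum of a finite family -/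
noncomputable def cov (f : X → Y) (u : J → X → ℝ≥0) (F : Finset J) (y : Y) : ℝ≥0 :=
  fmin f (fun x => F.sup fun j => u j x) y

lemma continuous_sup {u : J → X → ℝ≥0} (hu : ∀ j, Continuous (u j)) (F : Finset J) :
    Continuous fun x => F.sup fun j => u j x := by
  classical
  induction F using Finset.induction_on with
  | empty => simpa using continuous_const
  | insert a s _ ih =>
    simp only [Finset.sup_insert]
    exact (hu a).sup ih

lemma cov_mono (hsurj : Function.Surjective f) {u : J → X → ℝ≥0} {F F' : Finset J} (h : F ⊆ F')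
    (y : Y) : cov f u F y ≤ cov f u F' y :=
  fmin_mono hsurj (fun _ => Finset.sup_mono h) y

lemma continuous_cov (hf : IsProperMap f) (ho : IsOpenMap f) (hsurj : Function.Surjective f)
    {u : J → X → ℝ≥0} (hu : ∀ j, Continuous (u j)) (F : Finset J) :
    Continuous (cov f u F) :=
  continuous_fmin hf ho hsurj (continuous_sup hu F)

open scoped Classical in
/-- the functions on `Y` which see minimal covers of fibres -/
noncomputable def vfun (f : X → Y) (u : J → X → ℝ≥0) (F : Finset J) (n : ℕ) (y : Y) : ℝ :=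
  max 0 (min ((cov f u F y : ℝ) - 2 / (n + 1))
    (1 / (n + 1) - ((F.ssubsets.sup fun F' => cov f u F' y : ℝ≥0) : ℝ)))

lemma continuous_vfun (hf : IsProperMap f) (ho : IsOpenMap f) (hsurj : Function.Surjective f)
    {u : J → X → ℝ≥0} (hu : ∀ j, Continuous (u j)) (F : Finset J) (n : ℕ) :
    Continuous (vfun f u F n) := by
  classical
  have h1 : Continuous (cov f u F) := continuous_cov hf ho hsurj hu F
  have h2 : Continuous fun y => F.ssubsets.sup fun F' => cov f u F' y :=
    continuous_sup (fun F' => continuous_cov hf ho hsurj hu F') F.ssubsets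
  unfold vfun
  fun_prop

lemma vfun_nonneg (f : X → Y) (u : J → X → ℝ≥0) (F : Finset J) (n : ℕ) (y : Y) :
    0 ≤ vfun f u F n y := le_max_left _ _

lemma vfun_le (f : X → Y) (u : J → X → ℝ≥0) (F : Finset J) (n : ℕ) (y : Y) :
    vfun f u F n y ≤ 1 := by
  classical
  have h0 : (0 : ℝ) ≤ ((F.ssubsets.sup fun F' => cov f u F' y : ℝ≥0) : ℝ) := NNReal.coe_nonneg _
  have h1 : (1 : ℝ) / (n + 1) ≤ 1 := by
    rw [div_le_one (by positivity)]
    have : (0 : ℝ) ≤ n := Nat.cast_nonneg n
    linarith
  refine max_le zero_le_one ((min_le_right _ _).trans ?_)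
  linarith

lemma vfun_pos {u : J → X → ℝ≥0} {F : Finset J} {n : ℕ} {y : Y} (h : 0 < vfun f u F n y) :
    (2 : ℝ) / (n + 1) < cov f u F y ∧
      ∀ F', F' ⊂ F → (cov f u F' y : ℝ) < 1 / (n + 1) := by
  classical
  unfold vfun at h
  have h1 := (lt_max_iff.1 h).resolve_left (lt_irrefl _)
  obtain ⟨h2, h3⟩ := lt_min_iff.1 h1
  refine ⟨by linarith, fun F' hF' => ?_⟩
  have h4 : cov f u F' y ≤ F.ssubsets.sup fun F' => cov f u F' y :=
    Finset.le_sup (f := fun F' => cov f u F' y) (Finset.mem_ssubsets.2 hF')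
  have h5 : (cov f u F' y : ℝ) ≤ ((F.ssubsets.sup fun F' => cov f u F' y : ℝ≥0) : ℝ) := by
    exact_mod_cast h4
  linarith

/-- For every `n` only finitely many small `F` have `vfun f u F n y > 0`. -/
lemma finite_vfun (hf : IsProperMap f) (hsurj : Function.Surjective f) {u : J → X → ℝ≥0}
    (hu : ∀ j, Continuous (u j)) (rk : J → ℕ)
    (hfin : ∀ x n (δ : ℝ), 0 < δ → {j | rk j ≤ n ∧ δ ≤ (u j x : ℝ)}.Finite) (y : Y) (n r : ℕ) :
    {F : Finset J | 0 < vfun f u F n y ∧ F.card ≤ r ∧ ∀ j ∈ F, rk j ≤ r}.Finite := by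
  classical
  let 𝒮 : Set (Set J) := {σ | ∃ x, f x = y ∧ σ = {j | (1 : ℝ) / (n + 1) ≤ (u j x : ℝ)}}
  refine (finite_minHits rk r r 𝒮 ?_).subset ?_
  · rintro σ ⟨x, _, rfl⟩
    refine (hfin x r (1 / (n + 1)) (by positivity)).subset ?_
    rintro j ⟨h1, h2⟩
    exact ⟨h2, h1⟩
  · rintro F ⟨hF, hc, hr⟩
    obtain ⟨h1, h2⟩ := vfun_pos hF
    have hpos : (0 : ℝ) < 1 / (n + 1) := by positivity
    refine ⟨⟨?_, ?_⟩, hc, hr⟩
    · rintro σ ⟨x, hx, rfl⟩
      have h3 : cov f u F y ≤ F.sup fun j => u j x := by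
        have := fmin_le f (fun x => F.sup fun j => u j x) x
        rw [hx] at this
        exact this
      have h4 : ((1 : ℝ) / (n + 1)) < ((F.sup fun j => u j x : ℝ≥0) : ℝ) := by
        have h5 : (cov f u F y : ℝ) ≤ ((F.sup fun j => u j x : ℝ≥0) : ℝ) := by exact_mod_cast h3
        have h6 : (1 : ℝ) / (n + 1) ≤ 2 / (n + 1) := by
          apply div_le_div_of_nonneg_right <;> [norm_num; positivity]
        linarith
      by_contra hcon
      push Not at hcon
      have h7 : F.sup (fun j => u j x) ≤ Real.toNNReal (1 / (n + 1)) := by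
        refine Finset.sup_le fun j hj => ?_
        have h8 := hcon j hj
        simp only [mem_setOf_eq, not_le] at h8
        rw [← NNReal.coe_le_coe, Real.coe_toNNReal _ hpos.le]
        exact h8.le
      have h9 : ((F.sup fun j => u j x : ℝ≥0) : ℝ) ≤ 1 / (n + 1) := by
        have := NNReal.coe_le_coe.2 h7
        rwa [Real.coe_toNNReal _ hpos.le] at this
      linarith
    · intro F' hF' hhit
      have h3 := h2 F' hF'
      obtain ⟨x, hx, hxu⟩ := exists_fmin hf hsurj (continuous_sup hu F') y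
      obtain ⟨j, hj, hj2⟩ := hhit _ ⟨x, hx, rfl⟩
      have h4 : u j x ≤ F'.sup fun j => u j x := Finset.le_sup (f := fun j => u j x) hj
      have h5 : (1 : ℝ) / (n + 1) ≤ (u j x : ℝ) := hj2
      have h6 : (u j x : ℝ) ≤ (cov f u F' y : ℝ) := by
        have : u j x ≤ cov f u F' y := h4.trans hxu.le
        exact_mod_cast this
      linarith

end family

section main

variable {J X Y : Type} [TopologicalSpace X] [TopologicalSpace Y] {f : X → Y}

/-- Along an ultrafilter on which the functions `vfun` converge to their values at `y`, the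
functions `cov` vanish in the limit exactly if they vanish at `y`. -/
lemma cov_iff (hsurj : Function.Surjective f) {u : J → X → ℝ≥0} {y : Y} {G : Ultrafilter Y}
    (hG : ∀ F n, Tendsto (vfun f u F n) G (𝓝 (vfun f u F n y))) (F : Finset J) :
    cov f u F y = 0 ↔ Tendsto (cov f u F) G (𝓝 0) := by
  classical
  constructor
  · -- if it does not tend to zero, take a minimal such subset
    intro h0
    by_contra hcon
    have hex : ∃ F₀ ⊆ F, ¬ Tendsto (cov f u F₀) G (𝓝 0) ∧
        ∀ F', F' ⊂ F₀ → Tendsto (cov f u F') G (𝓝 0) := by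
      clear h0
      induction F using Finset.strongInduction with
      | _ F ih =>
      by_cases hm : ∀ F', F' ⊂ F → Tendsto (cov f u F') G (𝓝 0)
      · exact ⟨F, Finset.Subset.refl _, hcon, hm⟩
      · push Not at hm
        obtain ⟨F', hF', h'⟩ := hm
        obtain ⟨F₀, h1, h2, h3⟩ := ih F' hF' h'
        exact ⟨F₀, h1.trans hF'.1, h2, h3⟩
    obtain ⟨F₀, hF₀, h1, h2⟩ := hex
    have h3 : ∃ ε > 0, ∀ᶠ z in (G : Filter Y), ε ≤ cov f u F₀ z := by
      by_contra hno
      push Not at hno
      apply h1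
      rw [tendsto_order]
      refine ⟨fun a ha => absurd ha (not_lt_bot), fun a ha => ?_⟩
      exact hno a ha
    obtain ⟨ε, hε, hev⟩ := h3
    obtain ⟨n, hn⟩ := exists_nat_one_div_lt (K := ℝ) (show (0 : ℝ) < (ε : ℝ) / 4 by positivity)
    have hpos : (0 : ℝ) < 1 / ((n : ℝ) + 1) := by positivity
    have h4 : Tendsto (fun z => F₀.ssubsets.sup fun F' => cov f u F' z) (G : Filter Y) (𝓝 0) := by
      have : ∀ S : Finset (Finset J), (∀ F' ∈ S, Tendsto (cov f u F') G (𝓝 0)) →
          Tendsto (fun z => S.sup fun F' => cov f u F' z) (G : Filter Y) (𝓝 0) := by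
        intro S
        induction S using Finset.induction_on with
        | empty => intro _; simpa using tendsto_const_nhds
        | insert a s _ ih =>
          intro h
          simp only [Finset.sup_insert]
          have := (h a (Finset.mem_insert_self _ _)).sup_nhds
            (ih fun F' hF' => h F' (Finset.mem_insert_of_mem hF'))
          simpa using this
      exact this _ fun F' hF' => h2 F' (Finset.mem_ssubsets.1 hF')
    have h5 : ∀ᶠ z in (G : Filter Y),
        F₀.ssubsets.sup (fun F' => cov f u F' z) < Real.toNNReal (1 / (n + 1) / 2) := by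
      apply (tendsto_order.1 h4).2
      exact Real.toNNReal_pos.2 (by positivity)
    have h6 : ∀ᶠ z in (G : Filter Y), min (2 * (1 / ((n : ℝ) + 1))) (1 / ((n : ℝ) + 1) / 2) ≤
        vfun f u F₀ n z := by
      filter_upwards [hev, h5] with z hz1 hz2
      have hz3 : (ε : ℝ) ≤ (cov f u F₀ z : ℝ) := by exact_mod_cast hz1
      have hz4 : ((F₀.ssubsets.sup (fun F' => cov f u F' z) : ℝ≥0) : ℝ) < 1 / (n + 1) / 2 := by
        have := NNReal.coe_lt_coe.2 hz2
        rwa [Real.coe_toNNReal _ (by positivity)] at this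
      unfold vfun
      refine le_max_of_le_right (le_min ((min_le_left _ _).trans ?_) ((min_le_right _ _).trans ?_))
      · have : (2 : ℝ) / (n + 1) = 2 * (1 / (n + 1)) := by ring
        rw [this]
        linarith
      · linarith
    have h7 : min (2 * (1 / ((n : ℝ) + 1))) (1 / ((n : ℝ) + 1) / 2) ≤ vfun f u F₀ n y :=
      ge_of_tendsto (hG F₀ n) h6
    have h8 : 0 < vfun f u F₀ n y := lt_of_lt_of_le (lt_min (by positivity) (by positivity)) h7
    have h9 := (vfun_pos h8).1
    have h10 : cov f u F₀ y ≤ cov f u F y := cov_mono hsurj hF₀ y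
    rw [h0] at h10
    have h11 : (cov f u F₀ y : ℝ) ≤ 0 := by exact_mod_cast h10
    have : (0 : ℝ) < 2 / (n + 1) := by positivity
    linarith
  · intro ht
    by_contra hne
    have hpos : 0 < cov f u F y := pos_iff_ne_zero.2 hne
    have hex : ∃ F₀ ⊆ F, 0 < cov f u F₀ y ∧ ∀ F', F' ⊂ F₀ → cov f u F' y = 0 := by
      clear ht hne
      induction F using Finset.strongInduction with
      | _ F ih =>
      by_cases hm : ∀ F', F' ⊂ F → cov f u F' y = 0
      · exact ⟨F, Finset.Subset.refl _, hpos, hm⟩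
      · push Not at hm
        obtain ⟨F', hF', h'⟩ := hm
        obtain ⟨F₀, h1, h2, h3⟩ := ih F' hF' (pos_iff_ne_zero.2 h')
        exact ⟨F₀, h1.trans hF'.1, h2, h3⟩
    obtain ⟨F₀, hF₀, h1, h2⟩ := hex
    obtain ⟨n, hn⟩ := exists_nat_one_div_lt (K := ℝ)
      (show (0 : ℝ) < (cov f u F₀ y : ℝ) / 4 by positivity)
    have hp : (0 : ℝ) < 1 / ((n : ℝ) + 1) := by positivity
    have h3 : 0 < vfun f u F₀ n y := by
      unfold vfun
      refine lt_max_of_lt_right (lt_min ?_ ?_)
      · have : (2 : ℝ) / (n + 1) = 2 * (1 / (n + 1)) := by ring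
        rw [this]
        have : (0 : ℝ) < (cov f u F₀ y : ℝ) := by exact_mod_cast h1
        linarith
      · have : F₀.ssubsets.sup (fun F' => cov f u F' y) = 0 := by
          rw [← NNReal.bot_eq_zero, Finset.sup_eq_bot_iff]
          intro F' hF'
          rw [NNReal.bot_eq_zero]
          exact h2 F' (Finset.mem_ssubsets.1 hF')
        rw [this]
        simpa using hp
    have h4 : ∀ᶠ z in (G : Filter Y), 0 < vfun f u F₀ n z :=
      (tendsto_order.1 (hG F₀ n)).1 0 h3
    have h5 : ∀ᶠ z in (G : Filter Y), cov f u F z < Real.toNNReal (2 / (n + 1)) := by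
      apply (tendsto_order.1 ht).2
      exact Real.toNNReal_pos.2 (by positivity)
    obtain ⟨z, hz1, hz2⟩ := (h4.and h5).exists
    have h6 := (vfun_pos hz1).1
    have h7 : (cov f u F₀ z : ℝ) ≤ (cov f u F z : ℝ) := by exact_mod_cast cov_mono hsurj hF₀ z
    have h8 : (cov f u F z : ℝ) < 2 / (n + 1) := by
      have := NNReal.coe_lt_coe.2 hz2
      rwa [Real.coe_toNNReal _ (by positivity)] at this
    linarith

/-- Key step: such an ultrafilter lifts to one on `X` which has the same vanishing pattern as a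
point over `y`. -/
lemma exists_lift (hf : IsProperMap f) (hsurj : Function.Surjective f) {u : J → X → ℝ≥0}
    (hu : ∀ j, Continuous (u j)) {y : Y} {G : Ultrafilter Y}
    (hG : ∀ F n, Tendsto (vfun f u F n) G (𝓝 (vfun f u F n y))) :
    ∃ (x : X) (H : Ultrafilter X), f x = y ∧ map f (H : Filter X) ≤ G ∧
      ∀ j, u j x = 0 ↔ Tendsto (u j) H (𝓝 0) := by
  classical
  have hiff := cov_iff hsurj hG
  -- a maximal set of indices no finite part of which covers the fibre over y
  obtain ⟨R, -, hR⟩ := zorn_subset_nonempty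
    {R : Set J | ∀ F : Finset J, (F : Set J) ⊆ R → cov f u F y = 0} (by
      intro c hc hchain hne
      refine ⟨⋃₀ c, ?_, fun s hs => subset_sUnion_of_mem hs⟩
      intro F hF
      obtain ⟨s, hs, hFs⟩ : ∃ s ∈ c, (F : Set J) ⊆ s :=
        DirectedOn.exists_mem_subset_of_finset_subset_biUnion (f := id) hne
          hchain.directedOn (by simpa [sUnion_eq_biUnion] using hF)
      exact hc hs F hFs) ∅ (by
      intro F hF
      have : F = ∅ := by
        rw [← Finset.coe_eq_empty]
        exact subset_empty_iff.1 hF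
      subst this
      obtain ⟨x, hx, hxu⟩ := exists_fmin hf hsurj (continuous_sup hu ∅) y
      unfold cov
      rw [← hxu]
      simp)
  have hRmem : ∀ F : Finset J, (F : Set J) ⊆ R → cov f u F y = 0 := hR.prop
  have hRmax : ∀ R' : Set J, (∀ F : Finset J, (F : Set J) ⊆ R' → cov f u F y = 0) → R ⊆ R' →
      R' ⊆ R := fun R' h1 h2 => hR.le_of_ge h1 h2
  -- the point x
  obtain ⟨x, hx, hxR⟩ : ∃ x, f x = y ∧ ∀ j ∈ R, u j x = 0 := by
    have hcomp := isCompact_fib hf y
    have hne : ({x | f x = y} ∩ ⋂ j : R, {x | u j x = 0}).Nonempty := by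
      refine hcomp.inter_iInter_nonempty _
        (fun j => isClosed_eq (hu j) continuous_const) ?_
      intro t
      let F : Finset J := t.image Subtype.val
      have hF : (F : Set J) ⊆ R := by
        intro j hj
        simp only [F, Finset.coe_image, mem_image] at hj
        obtain ⟨k, _, rfl⟩ := hj
        exact k.2
      obtain ⟨x, hx, hxu⟩ := exists_fmin hf hsurj (continuous_sup hu F) y
      refine ⟨x, hx, ?_⟩
      simp only [mem_iInter, mem_setOf_eq]
      intro j hj
      have h1 : F.sup (fun j => u j x) = 0 := hxu.trans (hRmem F hF)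
      have h2 : u j.1 x ≤ F.sup fun j => u j x :=
        Finset.le_sup (f := fun j => u j x) (Finset.mem_image_of_mem _ hj)
      rw [h1] at h2
      exact nonpos_iff_eq_zero.1 h2
    obtain ⟨x, hx, hx2⟩ := hne
    exact ⟨x, hx, fun j hj => mem_iInter.1 hx2 ⟨j, hj⟩⟩
  -- the ultrafilter H
  obtain ⟨H, hH1, hH2⟩ : ∃ H : Ultrafilter X, map f (H : Filter X) ≤ G ∧
      ∀ j ∈ R, Tendsto (u j) H (𝓝 0) := by
    let φ : {F : Finset J // (F : Set J) ⊆ R} × {ε : ℝ≥0 // 0 < ε} → Filter X := fun p =>
      𝓟 {x | (p.1.1.sup fun j => u j x) < p.2.1} ⊓ comap f G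
    haveI hne1 : Nonempty ({F : Finset J // (F : Set J) ⊆ R} × {ε : ℝ≥0 // 0 < ε}) :=
      ⟨⟨⟨∅, by simp⟩, ⟨1, one_pos⟩⟩⟩
    have hdir : Directed (· ≥ ·) φ := by
      rintro ⟨⟨F, hF⟩, ⟨ε, hε⟩⟩ ⟨⟨F', hF'⟩, ⟨ε', hε'⟩⟩
      refine ⟨⟨⟨F ∪ F', by simp [hF, hF']⟩, ⟨min ε ε', lt_min hε hε'⟩⟩, ?_, ?_⟩
      · refine inf_le_inf_right _ (principal_mono.2 ?_)
        intro x hx
        have hx' : ((F ∪ F').sup fun j => u j x) < min ε ε' := hx
        have h1 : (F.sup fun j => u j x) ≤ (F ∪ F').sup fun j => u j x :=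
          Finset.sup_mono Finset.subset_union_left
        exact lt_of_le_of_lt h1 (lt_min_iff.1 hx').1
      · refine inf_le_inf_right _ (principal_mono.2 ?_)
        intro x hx
        have hx' : ((F ∪ F').sup fun j => u j x) < min ε ε' := hx
        have h1 : (F'.sup fun j => u j x) ≤ (F ∪ F').sup fun j => u j x :=
          Finset.sup_mono Finset.subset_union_right
        exact lt_of_le_of_lt h1 (lt_min_iff.1 hx').2
    have hneb : ∀ p, NeBot (φ p) := by
      rintro ⟨⟨F, hF⟩, ⟨ε, hε⟩⟩
      rw [neBot_iff, Ne, ← empty_mem_iff_bot]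
      intro hmem
      obtain ⟨s, hs, t, ht, hst⟩ := mem_inf_iff_superset.1 hmem
      obtain ⟨T, hT, hTt⟩ := mem_comap.1 ht
      have h1 : Tendsto (cov f u F) G (𝓝 0) := (hiff F).1 (hRmem F hF)
      have h2 : ∀ᶠ z in (G : Filter Y), cov f u F z < ε := (tendsto_order.1 h1).2 ε hε
      obtain ⟨z, hz1, hz2⟩ := (h2.and hT).exists
      obtain ⟨x', hx', hxu⟩ := exists_fmin hf hsurj (continuous_sup hu F) z
      have h3 : x' ∈ s := by
        refine (mem_principal.1 hs) ?_
        simp only [mem_setOf_eq]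
        rw [hxu]
        exact hz1
      have h4 : x' ∈ t := hTt (by rw [mem_preimage, hx']; exact hz2)
      exact hst ⟨h3, h4⟩
    have hne : NeBot (⨅ p, φ p) := iInf_neBot_of_directed' hdir hneb
    obtain ⟨H, hH⟩ := Ultrafilter.exists_le (⨅ p, φ p)
    refine ⟨H, ?_, ?_⟩
    · exact map_le_iff_le_comap.2 ((hH.trans (iInf_le _ hne1.some)).trans inf_le_right)
    · intro j hj
      rw [tendsto_order]
      refine ⟨fun a ha => absurd ha not_lt_bot, fun a ha => ?_⟩
      have h1 : (H : Filter X) ≤ 𝓟 {x | (({j} : Finset J).sup fun j => u j x) < a} :=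
        (hH.trans (iInf_le _ (⟨⟨{j}, by simpa using hj⟩, ⟨a, ha⟩⟩ :
          {F : Finset J // (F : Set J) ⊆ R} × {ε : ℝ≥0 // 0 < ε}))).trans inf_le_left
      have h2 := le_principal_iff.1 h1
      filter_upwards [h2] with x hx
      simpa using hx
  refine ⟨x, H, hx, hH1, fun j => ?_⟩
  have hmap : map f (H : Filter X) = G := by
    have h1 : ((H.map f : Ultrafilter Y) : Filter Y) ≤ G := hH1
    have h2 : H.map f = G := Ultrafilter.coe_le_coe.1 h1
    rw [← h2]
    rfl
  have e1 : {j | u j x = 0} ⊆ R := by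
    refine hRmax _ ?_ fun j hj => hxR j hj
    intro F hF
    have h1 : F.sup (fun j => u j x) = 0 := by
      rw [← NNReal.bot_eq_zero, Finset.sup_eq_bot_iff]
      intro j hj
      exact hF hj
    have h2 := fmin_le f (fun x => F.sup fun j => u j x) x
    rw [h1, hx] at h2
    exact nonpos_iff_eq_zero.1 h2
  have e2 : {j | Tendsto (u j) H (𝓝 0)} ⊆ R := by
    refine hRmax _ ?_ fun j hj => hH2 j hj
    intro F hF
    rw [hiff F]
    have h1 : Tendsto (fun x => F.sup fun j => u j x) H (𝓝 0) := by
      have : ∀ S : Finset J, (∀ j ∈ S, Tendsto (u j) H (𝓝 0)) →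
          Tendsto (fun x => S.sup fun j => u j x) (H : Filter X) (𝓝 0) := by
        intro S
        induction S using Finset.induction_on with
        | empty => intro _; simpa using tendsto_const_nhds
        | insert a s _ ih =>
          intro h
          simp only [Finset.sup_insert]
          have := (h a (Finset.mem_insert_self _ _)).sup_nhds
            (ih fun F' hF' => h F' (Finset.mem_insert_of_mem hF'))
          simpa using this
      exact this F fun j hj => hF hj
    rw [← hmap, tendsto_map'_iff]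
    refine tendsto_of_tendsto_of_tendsto_of_le_of_le tendsto_const_nhds h1 (fun _ => zero_le) ?_
    intro x'
    exact fmin_le f (fun x => F.sup fun j => u j x) x'
  exact ⟨fun h => hH2 j (e1 h), fun h => hxR j (e2 h)⟩

end main

end Pool.Agent.H35MR
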