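import Mathlib
import Pool.Agent.H35MR.Open
import Pool.Agent.Lib37.Main

set_option autoImplicit false
open Set Topology Filter

namespace Pool.Agent.H35MR

open scoped NNReal

/-- positive rationals written as `(k+1)/(m+1)` are dense in the positive reals -/
lemma exists_frac {α β : ℝ} (h0 : 0 ≤ α) (h : α < β) :
    ∃ k m : ℕ, α < ((k : ℝ) + 1) / (m + 1) ∧ ((k : ℝ) + 1) / (m + 1) < β := by
  obtain ⟨q, hq1, hq2⟩ := exists_rat_btwn h
  have hq : (0 : ℝ) < q := h0.trans_lt hq1
  have hq' : 0 < q := by exact_mod_cast hq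
  have hnum : 0 < q.num := Rat.num_pos.2 hq'
  refine ⟨q.num.toNat - 1, q.den - 1, ?_⟩
  have h1 : ((q.num.toNat - 1 : ℕ) : ℝ) + 1 = (q.num : ℝ) := by
    have h2 : 1 ≤ q.num.toNat := by omega
    rw [Nat.cast_sub h2]
    have h3 : ((q.num.toNat : ℤ) : ℝ) = (q.num : ℝ) := by
      rw [Int.toNat_of_nonneg hnum.le]
    push_cast at h3 ⊢
    linarith
  have h2 : ((q.den - 1 : ℕ) : ℝ) + 1 = (q.den : ℝ) := by
    rw [Nat.cast_sub q.pos]
    push_cast
    ring
  rw [h1, h2]
  have h3 : (q.num : ℝ) / (q.den : ℝ) = (q : ℝ) := by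
    exact_mod_cast (Rat.cast_def (K := ℝ) q).symm
  rw [h3]
  exact ⟨hq1, hq2⟩

/-- half of the convergence of a coordinate -/
lemma eventually_lt {X : Type} {H : Ultrafilter X} {g : X → ℝ} {c : ℝ}
    (hp : ∀ k m : ℕ, Real.toNNReal (c - ((k : ℝ) + 1) / (m + 1)) = 0 →
      Tendsto (fun x => Real.toNNReal (g x - ((k : ℝ) + 1) / (m + 1))) H (𝓝 0))
    (hm : ∀ k m : ℕ, Tendsto (fun x => Real.toNNReal (-g x - ((k : ℝ) + 1) / (m + 1))) H (𝓝 0) →
      Real.toNNReal (-c - ((k : ℝ) + 1) / (m + 1)) = 0)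
    {a : ℝ} (ha : c < a) : ∀ᶠ x in (H : Filter X), g x < a := by
  rcases le_or_gt 0 c with hc | hc
  · obtain ⟨k, m, h1, h2⟩ := exists_frac hc ha
    have h3 := hp k m (Real.toNNReal_of_nonpos (by linarith))
    have h4 := (tendsto_order.1 h3).2 (Real.toNNReal (a - ((k : ℝ) + 1) / (m + 1)))
      (Real.toNNReal_pos.2 (by linarith))
    filter_upwards [h4] with x hx
    have := (Real.toNNReal_lt_toNNReal_iff (by linarith)).1 hx
    linarith
  · obtain ⟨k, m, h1, h2⟩ := exists_frac (α := max (-a) 0) (β := -c) (le_max_right _ _)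
      (max_lt (by linarith) (by linarith))
    by_contra hcon
    have h3 : ∀ᶠ x in (H : Filter X), ¬ g x < a := Ultrafilter.eventually_not.2 hcon
    have h4 : Tendsto (fun x => Real.toNNReal (-g x - ((k : ℝ) + 1) / (m + 1))) H (𝓝 0) := by
      refine tendsto_const_nhds.congr' ?_
      filter_upwards [h3] with x hx
      have h5 : -a < ((k : ℝ) + 1) / (m + 1) := (le_max_left _ _).trans_lt h1
      exact (Real.toNNReal_of_nonpos (by linarith)).symm
    have h5 := Real.toNNReal_eq_zero.1 (hm k m h4)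
    linarith

/-- **Open perfect images.**  An open perfect image of a subspace of `c₀(Γ)` is again (homeomorphic
to) a subspace of some `c₀(Γ')`; no normality is needed. -/
theorem open_image {X Y : Type} [TopologicalSpace X] [TopologicalSpace Y] {Γ : Type}
    {e : X → (Γ → ℝ)} (he : IsEmbedding e) (h0 : ∀ x, Tendsto (e x) cofinite (𝓝 0))
    {f : X → Y} (hf : IsProperMap f) (ho : IsOpenMap f) (hsurj : Function.Surjective f) :
    ∃ (Γ' : Type) (g : Y → (Γ' → ℝ)), IsEmbedding g ∧ ∀ y, Tendsto (g y) cofinite (𝓝 0) := by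
  classical
  have hT2 : T2Space X := he.t2Space
  have hT1 : T1Space Y := Lib37.t1_image hf.isClosedMap hsurj
  have hec : ∀ γ, Continuous fun x => e x γ := fun γ => (continuous_apply γ).comp he.continuous
  let J := Γ × Bool × ℕ × ℕ
  let sg : Bool → ℝ := fun b => if b then 1 else -1
  let u : J → X → ℝ≥0 := fun j x =>
    Real.toNNReal (sg j.2.1 * e x j.1 - ((j.2.2.1 : ℝ) + 1) / (j.2.2.2 + 1))
  let rk : J → ℕ := fun j => j.2.2.1 + j.2.2.2
  have hu : ∀ j, Continuous (u j) := by
    intro j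
    exact continuous_real_toNNReal.comp (((hec j.1).const_mul _).sub continuous_const)
  have hfin : ∀ x n (δ : ℝ), 0 < δ → {j | rk j ≤ n ∧ δ ≤ (u j x : ℝ)}.Finite := by
    intro x n δ hδ
    have h1 : {γ | ¬ |e x γ| < 1 / ((n : ℝ) + 1)}.Finite := by
      have h2 := (h0 x).eventually (Metric.ball_mem_nhds (0 : ℝ) (ε := 1 / ((n : ℝ) + 1))
        (by positivity))
      have h3 := Filter.eventually_cofinite.1 h2
      simpa [Real.dist_eq] using h3
    refine (h1.prod ((finite_univ : (univ : Set Bool).Finite).prod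
      ((finite_Iic n).prod (finite_Iic n)))).subset ?_
    rintro ⟨γ, b, k, m⟩ ⟨hr, hj⟩
    have hr' : k + m ≤ n := hr
    refine ⟨?_, mem_univ _, ?_, ?_⟩
    · simp only [mem_setOf_eq, not_lt]
      have h4 : (0 : ℝ) < u (γ, b, k, m) x := hδ.trans_le hj
      have h5 : 0 < sg b * e x γ - ((k : ℝ) + 1) / (m + 1) := by
        have : 0 < u (γ, b, k, m) x := by exact_mod_cast h4
        exact Real.toNNReal_pos.1 this
      have h6 : (1 : ℝ) / (n + 1) ≤ ((k : ℝ) + 1) / (m + 1) := by
        have hk : (0 : ℝ) ≤ k := Nat.cast_nonneg k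
        have hmn : (m : ℝ) ≤ n := by exact_mod_cast (by omega : m ≤ n)
        exact div_le_div₀ (by linarith) (by linarith) (by positivity) (by linarith)
      have h7 : sg b * e x γ ≤ |e x γ| := by
        cases b
        · simp only [sg, Bool.false_eq_true, if_false]
          linarith [neg_abs_le (e x γ)]
        · simp only [sg, if_true]
          linarith [le_abs_self (e x γ)]
      linarith
    · simp only [mem_Iic]; omega
    · simp only [mem_Iic]; omega
  let N : Finset J × ℕ → ℕ := fun i => i.2 + i.1.card + i.1.sup rk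
  let g : Y → (Finset J × ℕ → ℝ) := fun y i => vfun f u i.1 i.2 y / ((N i : ℝ) + 1)
  have hgc : Continuous g := by
    refine continuous_pi fun i => ?_
    exact (continuous_vfun hf ho hsurj hu i.1 i.2).div_const _
  have hgi : IsInducing g := by
    rw [isInducing_iff_nhds]
    intro y
    refine le_antisymm (tendsto_iff_comap.1 hgc.continuousAt) ?_
    rw [Filter.le_iff_ultrafilter]
    intro G hG
    have hG1 : Tendsto g G (𝓝 (g y)) := tendsto_iff_comap.2 hG
    have hG2 : ∀ F n, Tendsto (vfun f u F n) G (𝓝 (vfun f u F n y)) := by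
      intro F n
      have h1 := (tendsto_pi_nhds.1 hG1 (F, n)).mul_const ((N (F, n) : ℝ) + 1)
      have h2 : ∀ z, g z (F, n) * ((N (F, n) : ℝ) + 1) = vfun f u F n z := by
        intro z
        have : ((N (F, n) : ℝ) + 1) ≠ 0 := by positivity
        exact div_mul_cancel₀ _ this
      simpa only [h2] using h1
    obtain ⟨x, H, hx, hH, hpat⟩ := exists_lift hf hsurj hu hG2
    have hcoord : ∀ γ, Tendsto (fun x' => e x' γ) H (𝓝 (e x γ)) := by
      intro γ
      have hplus : ∀ k m : ℕ, Real.toNNReal (e x γ - ((k : ℝ) + 1) / (m + 1)) = 0 ↔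
          Tendsto (fun x' => Real.toNNReal (e x' γ - ((k : ℝ) + 1) / (m + 1))) H (𝓝 0) := by
        intro k m
        have := hpat (γ, true, k, m)
        simpa only [u, sg, if_true, one_mul] using this
      have hminus : ∀ k m : ℕ, Real.toNNReal (-e x γ - ((k : ℝ) + 1) / (m + 1)) = 0 ↔
          Tendsto (fun x' => Real.toNNReal (-e x' γ - ((k : ℝ) + 1) / (m + 1))) H (𝓝 0) := by
        intro k m
        have := hpat (γ, false, k, m)
        simpa only [u, sg, Bool.false_eq_true, if_false, neg_mul, one_mul] using this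
      rw [tendsto_order]
      constructor
      · intro a ha
        have := eventually_lt (H := H) (g := fun x' => -e x' γ) (c := -e x γ)
          (fun k m => (hminus k m).1) (fun k m => by
            have := (hplus k m).2
            simpa only [neg_neg] using this) (a := -a) (by linarith)
        filter_upwards [this] with x' hx'
        linarith
      · intro a ha
        exact eventually_lt (H := H) (g := fun x' => e x' γ) (c := e x γ)
          (fun k m => (hplus k m).1) (fun k m => (hminus k m).2) ha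
    have hHx : (H : Filter X) ≤ 𝓝 x := by
      rw [he.isInducing.nhds_eq_comap]
      exact tendsto_iff_comap.1 (tendsto_pi_nhds.2 hcoord)
    have h1 : map f (H : Filter X) ≤ 𝓝 y := by
      rw [← hx]
      exact (map_mono hHx).trans hf.continuous.continuousAt
    have h2 : H.map f = G := Ultrafilter.coe_le_coe.1 hH
    rw [← h2]
    exact h1
  refine ⟨Finset J × ℕ, g, hgi.isEmbedding, ?_⟩
  intro y
  rw [Metric.tendsto_nhds]
  intro ε hε
  rw [Filter.eventually_cofinite]
  obtain ⟨N₀, hN₀⟩ := exists_nat_one_div_lt hε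
  refine ((finite_Iic N₀).biUnion (t := fun n => (fun F => (F, n)) ''
    {F : Finset J | 0 < vfun f u F n y ∧ F.card ≤ N₀ ∧ ∀ j ∈ F, rk j ≤ N₀}) fun n _ =>
      (finite_vfun hf hsurj hu rk hfin y n N₀).image _).subset ?_
  rintro ⟨F, n⟩ hi
  simp only [mem_setOf_eq, Real.dist_eq, sub_zero, not_lt] at hi
  have hpos : (0 : ℝ) < (N (F, n) : ℝ) + 1 := by positivity
  have h1 : g y (F, n) = vfun f u F n y / ((N (F, n) : ℝ) + 1) := rfl
  rw [h1, abs_of_nonneg (div_nonneg (vfun_nonneg _ _ _ _ _) hpos.le)] at hi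
  have h2 : 0 < vfun f u F n y := by
    by_contra hcon
    have h3 : vfun f u F n y = 0 := le_antisymm (not_lt.1 hcon) (vfun_nonneg _ _ _ _ _)
    rw [h3, zero_div] at hi
    linarith
  have h4 : vfun f u F n y / ((N (F, n) : ℝ) + 1) ≤ 1 / ((N (F, n) : ℝ) + 1) :=
    div_le_div_of_nonneg_right (vfun_le _ _ _ _ _) hpos.le
  have h5 : (1 : ℝ) / ((N₀ : ℝ) + 1) < 1 / ((N (F, n) : ℝ) + 1) := by linarith
  have h6 : (N (F, n) : ℝ) + 1 < (N₀ : ℝ) + 1 :=
    (one_div_lt_one_div (by positivity) hpos).1 h5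
  have h7 : N (F, n) < N₀ := by
    have : (N (F, n) : ℝ) < N₀ := by linarith
    exact_mod_cast this
  have h8 : n + F.card + F.sup rk < N₀ := h7
  refine mem_biUnion (x := n) (show n ≤ N₀ by omega) ⟨F, ⟨h2, by omega, fun j hj => ?_⟩, rfl⟩
  have : rk j ≤ F.sup rk := Finset.le_sup hj
  omega

end Pool.Agent.H35MR
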